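import Pool.Agent.H257R3.SI.Stubs

/-! Tasks A4 and A5 -/

namespace Pool.Agent.Helper116R3

open Pool.Agent.H257R3.SI Finset

theorem Ex_add {V : Type} [Fintype V] [DecidableEq V] (ρ c : ℝ) (g h : (V → Bool) → ℝ) :
    Ex ρ (fun F => g F + c * h F) = Ex ρ g + c * Ex ρ h := by
  unfold Ex
  rw [Finset.mul_sum, ← Finset.sum_add_distrib]
  exact Finset.sum_congr rfl fun F _ => by ring

theorem a4 (h1 : St_A1) (h2 : St_A2) : St_A4 := by
  intro V _ _ ρ S φ
  induction S using Finset.induction_on with
  | empty =>
    simp only [Finset.prod_empty, Finset.card_empty, pow_zero]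
    exact h1 V ρ 1
  | insert v S hv ih =>
    have e : (fun F : V → Bool => ∏ w ∈ insert v S, φ (F w)) =
        fun F => φ (F v) * ∏ w ∈ S, φ (F w) := by
      funext F
      rw [Finset.prod_insert hv]
    rw [e, h2 V ρ v φ (fun F => ∏ w ∈ S, φ (F w)), ih, Finset.card_insert_of_notMem hv, pow_succ]
    · ring
    · intro F b
      refine Finset.prod_congr rfl fun w hw => ?_
      have : w ≠ v := fun h => hv (h ▸ hw)
      rw [Function.update_of_ne this]

theorem a5 (h1 : St_A1) (h2 : St_A2) : St_A5 := by
  intro V _ _ ρ c M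
  induction M using Finset.induction_on with
  | empty =>
    intro _ _
    simp only [Finset.prod_empty, Finset.card_empty, pow_zero]
    exact h1 V ρ 1
  | insert e M he ih =>
    intro ha hb
    have ih' := ih (fun p hp q hq => ha p (Finset.mem_insert_of_mem hp) q
      (Finset.mem_insert_of_mem hq)) (fun p hp q hq => hb p (Finset.mem_insert_of_mem hp) q
      (Finset.mem_insert_of_mem hq))
    set g : (V → Bool) → ℝ := fun F => ∏ p ∈ M,
      (1 + c * (if F p.1 = true ∧ F p.2 = true then (1 : ℝ) else 0)) with hg
    set φ : Bool → ℝ := fun b => if b = true then 1 else 0 with hφ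
    have hemem := Finset.mem_insert_self e M
    have hxy : e.1 ≠ e.2 := ha e hemem e hemem
    have gx : ∀ F b, g (Function.update F e.1 b) = g F := by
      intro F b
      refine Finset.prod_congr rfl fun p hp => ?_
      have hpm := Finset.mem_insert_of_mem (a := p) (b := e) hp
      have hpe : e ≠ p := fun h => he (h ▸ hp)
      have n1 : p.1 ≠ e.1 := fun h => (hb e hemem p hpm hpe).1 h.symm
      have n2 : p.2 ≠ e.1 := fun h => ha e hemem p hpm h.symm
      rw [Function.update_of_ne n1, Function.update_of_ne n2]
    have gy : ∀ F b, g (Function.update F e.2 b) = g F := by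
      intro F b
      refine Finset.prod_congr rfl fun p hp => ?_
      have hpm := Finset.mem_insert_of_mem (a := p) (b := e) hp
      have hpe : e ≠ p := fun h => he (h ▸ hp)
      have n1 : p.1 ≠ e.2 := fun h => ha p hpm e hemem h
      have n2 : p.2 ≠ e.2 := fun h => (hb e hemem p hpm hpe).2 h.symm
      rw [Function.update_of_ne n1, Function.update_of_ne n2]
    have e1 : (fun F : V → Bool => ∏ p ∈ insert e M,
        (1 + c * (if F p.1 = true ∧ F p.2 = true then (1 : ℝ) else 0))) =
        fun F => g F + c * (φ (F e.1) * (φ (F e.2) * g F)) := by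
      funext F
      rw [Finset.prod_insert he]
      simp only [hφ, hg]
      rcases Bool.eq_false_or_eq_true (F e.1) with hx | hx
      · rcases Bool.eq_false_or_eq_true (F e.2) with hy | hy
        · rw [hx, hy]; simp; ring
        · rw [hx, hy]; simp
      · rw [hx]; simp
    have h3 : Ex ρ (fun F => φ (F e.1) * (φ (F e.2) * g F)) = ρ * (ρ * Ex ρ g) := by
      rw [h2 V ρ e.1 φ (fun F => φ (F e.2) * g F) (fun F b => by
        rw [gx F b, Function.update_of_ne hxy.symm]), h2 V ρ e.2 φ g gy]
      simp [hφ]
    rw [e1, Ex_add, h3, Finset.card_insert_of_notMem he, pow_succ]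
    have h4 : Ex ρ g = (1 + c * ρ ^ 2) ^ M.card := ih'
    rw [h4]
    ring

end Pool.Agent.Helper116R3
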